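import Pool.Agent.H18.QGR.Stmts

/-!
# Board qgr, row FIN
-/

set_option autoImplicit false

noncomputable section

open Filter
open scoped Topology

namespace Pool.QGR

open Pool.CGR

theorem fin_thm (hJEX : JEXStmt) (hJCV : JCVStmt) (hGNB : GNBStmt) (hAVG : AVGStmt)
    (hSMB : SMBStmt) (hWKS : WKSStmt) : FINStmt := by
  intro m q Q hq A _ τ hτ x hL
  obtain ⟨⟨C, j, hJS⟩, hU⟩ := hJEX m q Q hq A τ hτ.comm x hL
  obtain ⟨J, hJ1, hJ2⟩ := hJCV m q Q hq A τ hτ x hL C j hJS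
  obtain ⟨C', hC', hG⟩ := hGNB m q Q hq A τ hτ.comm x hL C j hJS hU
  have hsupp : ∀ (N : ℕ) (i : Fin m) (w : List (Fin m)), N < w.length → pN q j N i w = 0 := by
    intro N i w hw
    unfold pN
    rw [Finsupp.finsetSum_apply]
    refine Finset.sum_eq_zero (fun v hv => ?_)
    rw [mem_wds] at hv
    rw [Finsupp.smul_apply, hWKS m q v w (by omega), smul_zero]
  choose H hH using fun N : ℕ => hAVG m N (pN q j N) (hsupp N)
  refine ⟨J, H, hJ1, fun i => ?_⟩
  set ρ : ℝ := 1 + ∑ i, ‖x i‖ with hρ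
  have hρ1 : 1 ≤ ρ := by
    have : 0 ≤ ∑ i, ‖x i‖ := Finset.sum_nonneg (fun i _ => norm_nonneg _)
    linarith
  have hxρ : ∀ i, ‖x i‖ ≤ ρ := by
    intro i
    have := Finset.single_le_sum (f := fun i => ‖x i‖) (fun i _ => norm_nonneg _)
      (Finset.mem_univ i)
    linarith
  have hzero : Tendsto (fun N => ((H N).sum fun w r => r • cg x i w) - evP x (pN q j N i))
      atTop (𝓝 0) := by
    rw [← tendsto_add_atTop_iff_nat 1]
    set R : ℝ := 2 * ρ * C' with hR
    have hsum := (hSMB Q R hq.nonneg hq.lt (by positivity)).tendsto_atTop_zero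
    have h0 : Tendsto (fun n : ℕ => (R * C') * (R ^ n * Q ^ tr (n / 2))) atTop (𝓝 0) := by
      simpa using hsum.const_mul (R * C')
    refine squeeze_zero_norm (fun n => ?_) h0
    have h1 := hH (n + 1) A x ρ hρ1 hxρ i
    have h2 := hG (n + 1)
    have h3 : ((n + 1 : ℕ) : ℝ) + 1 ≤ 2 ^ (n + 1) := by
      have : n + 1 + 1 ≤ 2 ^ (n + 1) := Nat.succ_le_of_lt Nat.lt_two_pow_self
      exact_mod_cast this
    have hQ : 0 ≤ Q ^ tr (n / 2) := pow_nonneg hq.nonneg _
    have h4 : n + 1 - 1 = n := rfl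
    rw [h4] at h2
    calc ‖((H (n + 1)).sum fun w r => r • cg x i w) - evP x (pN q j (n + 1) i)‖
        ≤ ρ ^ (n + 1) * (((n + 1 : ℕ) : ℝ) + 1) * l1 (gg (pN q j (n + 1))) := h1
      _ ≤ ρ ^ (n + 1) * (((n + 1 : ℕ) : ℝ) + 1) * (C' ^ (n + 1 + 1) * Q ^ tr (n / 2)) :=
          mul_le_mul_of_nonneg_left h2 (by positivity)
      _ ≤ ρ ^ (n + 1) * 2 ^ (n + 1) * (C' ^ (n + 1 + 1) * Q ^ tr (n / 2)) := by
          apply mul_le_mul_of_nonneg_right _ (by positivity)
          exact mul_le_mul_of_nonneg_left h3 (by positivity)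
      _ = (R * C') * (R ^ n * Q ^ tr (n / 2)) := by
          rw [hR, mul_pow, mul_pow]
          simp only [pow_succ]
          ring
  have := hzero.add (hJ2 i)
  simpa using this

end Pool.QGR
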