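import Pool.Agent.H18.QGR.Stmts

/-!
# Board qgr, row WXR
-/

set_option autoImplicit false

noncomputable section

open Filter
open scoped Topology

namespace Pool.QGR

open Pool.CGR

namespace WXR

theorem ph_sn (hFKR : FKRStmt) {m : ℕ} (q : Fin m → Fin m → ℝ) (hq : ∀ i j, q i j = q j i)
    (j : Fin m) (f : E m) : Ph q (sn j f) = Xr q j (Ph q f) := by
  induction f using Finsupp.induction_linear with
  | zero => simp
  | add f g hf hg => rw [map_add, map_add, map_add, map_add, hf, hg]
  | single w c =>
    have h1 : sn j (Finsupp.single w c) = Finsupp.single (w ++ [j]) c := by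
      unfold sn
      rw [Finsupp.lmapDomain_apply, Finsupp.mapDomain_single]
    rw [h1]
    unfold Ph
    rw [Finsupp.linearCombination_single, Finsupp.linearCombination_single, hFKR m q hq j w,
      map_smul]

end WXR

theorem wxr_thm (hFKR : FKRStmt) (hWKF : WKFStmt) (hWKI : WKIStmt) : WXRStmt := by
  intro m q hq j w
  have hinj : Function.Injective (Ph q) := by
    intro f g hfg
    rw [← hWKI m q f, ← hWKI m q g, hfg]
  apply hinj
  rw [WXR.ph_sn hFKR q hq, hWKF m q w, map_add, hWKF m q (w ++ [j]), map_sum]
  unfold Xr
  rw [LinearMap.add_apply]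
  congr 1
  · unfold sn
    rw [Finsupp.lmapDomain_apply, Finsupp.mapDomain_single]
  · unfold ar
    rw [Finsupp.linearCombination_single, one_smul]
    refine Finset.sum_congr rfl (fun k _ => ?_)
    split_ifs with h
    · rw [map_smul, hWKF m q (w.eraseIdx k), Finsupp.smul_single, smul_eq_mul, mul_one]
    · rw [map_zero]

end Pool.QGR
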